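import Mathlib
import Pool.Agent.H13.ThmB

set_option autoImplicit false

namespace Pool.Agent.Results.MP_309968_ag.EighteenHyperplane

open Pool.Agent.H13

/-- For every `n ≥ 18` and very general points of the complex projective plane, consider the
`18`-dimensional linear subspace `L` of classes `(d, m)` with `5 d = 2 m i₀ + ∑ i, m i` (where
`i₀ < 18`) and `m i = 0` for `i ≥ 18`.  For a class `y` in `L` the following are equivalent:
`y` lies in the closed cone of curves; `y` lies in the conjectural cone, spanned by the positive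
cone and the `(-1)`-curves; `y` lies in the positive cone; `y` is nef. -/
theorem result : ∀ n : ℕ, 18 ≤ n →
    VeryGeneral n (fun p => ∀ i₀ : Fin n, (i₀ : ℕ) < 18 → ∀ y : ℝ × (Fin n → ℝ),
      5 * y.1 = 2 * y.2 i₀ + ∑ i, y.2 i → (∀ i : Fin n, 18 ≤ (i : ℕ) → y.2 i = 0) →
      ((y ∈ moriCone p ↔ y ∈ expectedCone p) ∧
        (y ∈ moriCone p ↔ 0 ≤ y.1 ∧ ∑ i, y.2 i ^ 2 ≤ y.1 ^ 2) ∧
        (y ∈ moriCone p ↔ ∀ v ∈ moriCone p, 0 ≤ y.1 * v.1 - ∑ i, y.2 i * v.2 i))) :=
  fun n hn => thmB n hn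

end Pool.Agent.Results.MP_309968_ag.EighteenHyperplane
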