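import Mathlib
import Pool.Agent.H13.ThmA

set_option autoImplicit false

namespace Pool.Agent.Results.MP_309968_ag.MinusOneOuterBound

open Pool.Agent.H13

/-- For `n ≤ 21` very general points of the complex projective plane, the closed cone of curves of
the blow-up is contained in the closed cone spanned by the exceptional classes, the integral
classes of square `-1` (and, for `n ≥ 19` only, the totally odd integral classes of square
`17 - n`) and the forward positive cone. -/
theorem result : ∀ n : ℕ, n ≤ 21 →
    VeryGeneral n (fun p => moriCone p ⊆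
      closure ((Submodule.span {c : ℝ // 0 ≤ c}
        (exceptionalClasses n ∪ minusOneClasses n ∪ oddClasses n ∪ positiveCone n) :
          Set (ℝ × (Fin n → ℝ))))) := by
  intro n hn
  obtain ⟨f, hf0, hf⟩ := thmA n hn
  refine ⟨f, hf0, fun p hp => (hf p hp).trans (closure_mono ?_)⟩
  refine Submodule.span_le.2 ?_
  rintro v ((⟨a, b, rfl, ha, h | ⟨h1, h2, h3⟩⟩ | hv) | hv)
  · exact Submodule.subset_span (Or.inl (Or.inl (Or.inr ⟨a, b, rfl, ha, h⟩)))
  · rcases Nat.lt_or_ge n 19 with hlt | hge
    · rcases Nat.lt_or_ge n 18 with hlt' | hge'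
      · refine Submodule.subset_span (Or.inr ⟨Nat.cast_nonneg _, ?_⟩)
        simp only
        have h4 : ∑ i, b i ^ 2 ≤ a ^ 2 := by omega
        exact_mod_cast h4
      · refine Submodule.subset_span (Or.inl (Or.inl (Or.inr ⟨a, b, rfl, ha, ?_⟩)))
        omega
    · exact Submodule.subset_span (Or.inl (Or.inr ⟨a, b, rfl, hge, h1, h2, h3⟩))
  · exact Submodule.subset_span (Or.inl (Or.inl (Or.inl hv)))
  · exact Submodule.subset_span (Or.inr hv)

end Pool.Agent.Results.MP_309968_ag.MinusOneOuterBound
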