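import Mathlib
import Pool.Agent.H92.CR.Hyper

set_option autoImplicit false

namespace Pool.Agent.Results.MP_309968_ag.TenPointsHyperplanes

open Pool.Agent.H13

/-- Ten very general points of the complex projective plane.  For all odd positive integers
`A, B₁, …, B₁₀` with `A² + 1 = ∑ Bᵢ²` and `∑ Bᵢ = 3 A + 1` (the classes `v = A H - ∑ Bᵢ Eᵢ` that
are characteristic, with `v² = -1` and `K · v = 1`) consider the hyperplane `v · y = 0` of
`N₁(X₁₀)`.  For `y = d H - ∑ mᵢ Eᵢ` in this hyperplane the following are equivalent: `y` lies in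
the closed cone of curves; `y` lies in the conjectural cone, spanned by the positive cone and the
`(-1)`-curves; `y` lies in the positive cone; `y` is nef.  If moreover `A > 3` and `y` lies in
the cone of curves, then `K · y > 0` or `y` is a multiple of `v - (3; 1, …, 1) = v + K`. -/
theorem result :
    VeryGeneral 10 (fun p => ∀ (A : ℕ) (B : Fin 10 → ℕ), Odd A → (∀ i, Odd (B i)) →
      A ^ 2 + 1 = ∑ i, B i ^ 2 → ∑ i, B i = 3 * A + 1 →
      ∀ y : ℝ × (Fin 10 → ℝ), A * y.1 = ∑ i, B i * y.2 i →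
      ((y ∈ moriCone p ↔ y ∈ expectedCone p) ∧
        (y ∈ moriCone p ↔ 0 ≤ y.1 ∧ ∑ i, y.2 i ^ 2 ≤ y.1 ^ 2) ∧
        (y ∈ moriCone p ↔ ∀ v ∈ moriCone p, 0 ≤ y.1 * v.1 - ∑ i, y.2 i * v.2 i) ∧
        (3 < A → y ∈ moriCone p →
          0 < -3 * y.1 + ∑ i, y.2 i ∨
            ∃ c : ℝ, y = c • ((A : ℝ) - 3, fun i => (B i : ℝ) - 1)))) :=
  Pool.Agent.H92.CR.thm_hyper

end Pool.Agent.Results.MP_309968_ag.TenPointsHyperplanes
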