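import Mathlib
import Pool.Agent.H92.CR.WeylW

set_option autoImplicit false

namespace Pool.Agent.Results.MP_309968_ag.WeylSubspaces

open Pool.Agent.H13 Pool.Agent.H92.CR

/-- Let `n ≥ 11`, and let `p` be very general points of the complex projective plane.  For all
`M ≥ 1`, all sets `S` of points not among the first nine and all Weyl group elements `w` (words in
the quadratic transformation and permutations), consider the ten-dimensional linear space of the
classes `y` with `w y` in `L_{M,S}`.  For `y` in this space the following are equivalent: `y` lies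
in the closed cone of curves; `y` lies in the conjectural cone, spanned by the positive cone and
the `(-1)`-curves; `y` lies in the positive cone; `y` is nef.  Moreover
`K · y = 2 (M |S| - δ) κ(w y)`, where `δ = 1` if the tenth point is in `S` and `δ = 0` otherwise,
and if `y` lies in the cone of curves, then `κ(w y) > 0` or `w y` is a multiple of
`(3; 1⁹, 0, …, 0)`. -/
theorem result : ∀ (n : ℕ) (hn : 11 ≤ n),
    VeryGeneral n (fun p => ∀ (M : ℕ) (S : Finset (Fin n))
      (w : List (Option (Equiv.Perm (Fin n)))) (y : ℝ × (Fin n → ℝ)),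
      1 ≤ M → (∀ i ∈ S, 9 ≤ (i : ℕ)) →
      InSpace (by omega) M S (word (by omega) w y) →
      ((y ∈ moriCone p ↔ y ∈ expectedCone p) ∧
        (y ∈ moriCone p ↔ 0 ≤ y.1 ∧ ∑ i, y.2 i ^ 2 ≤ y.1 ^ 2) ∧
        (y ∈ moriCone p ↔ ∀ v ∈ moriCone p, 0 ≤ y.1 * v.1 - ∑ i, y.2 i * v.2 i) ∧
        -3 * y.1 + ∑ i, y.2 i =
          2 * (M * S.card - (if (⟨9, by omega⟩ : Fin n) ∈ S then 1 else 0)) *
            kappa (by omega) (word (by omega) w y) ∧
        (y ∈ moriCone p → 0 < kappa (by omega) (word (by omega) w y) ∨
          ∃ c : ℝ, word (by omega) w y = c • ((3 : ℝ), fun i : Fin n =>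
            if (i : ℕ) < 9 then (1 : ℝ) else 0)))) :=
  fun n hn => thm_weylW n hn

end Pool.Agent.Results.MP_309968_ag.WeylSubspaces
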